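import Pool.Agent.Helper27.PHU.Turn

/-!
# MP_8bf717_co, upper bound: closedness of the two sets of directions (PHU-12)
-/

set_option autoImplicit false

open MeasureTheory Set

namespace Pool.Agent.Helper27.PHU

open Pool.Agent.Helper37.PH Pool.Agent.Helper61.PH

theorem dt_continuous {X : Type*} [TopologicalSpace X] {f g : X → ℝ × ℝ} (hf : Continuous f)
    (hg : Continuous g) : Continuous fun x => dt (f x) (g x) := by
  unfold dt
  exact ((continuous_fst.comp hf).mul (continuous_fst.comp hg)).add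
    ((continuous_snd.comp hf).mul (continuous_snd.comp hg))

theorem uu_continuous : Continuous uu := by
  unfold uu
  exact Real.continuous_cos.prodMk Real.continuous_sin

theorem nn_continuous : Continuous nn := by
  unfold nn
  exact Real.continuous_sin.neg.prodMk Real.continuous_cos

/-- the strict signs (PHU-11) as a hypothesis -/
def PosHyp (K : Set (ℝ × ℝ)) : Prop :=
  ∀ (θ : ℝ) (z : Fin 10 → ℝ × ℝ), Good K θ z →
    0 < dt (uu θ) (z 3 - z 0) ∧ dt (z 6) (uu θ) < 0 ∧ dt (z 7) (uu θ) < 0 ∧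
      0 < dt (z 8) (uu θ) ∧ 0 < dt (z 9) (uu θ) ∧ 0 < dt (nn θ) (z 4 - z 5) ∧
      0 < hb θ z ∧ hb θ z < 1 / 2

abbrev W10 := ℝ × (Fin 10 → ℝ × ℝ)

theorem good_iff (K : Set (ℝ × ℝ)) (θ : ℝ) (z : Fin 10 → ℝ × ℝ) :
    Good K θ z ↔ ((z 0 ∈ K ∧ z 1 ∈ K ∧ z 2 ∈ K ∧ z 3 ∈ K ∧ z 4 ∈ K ∧ z 5 ∈ K) ∧
      ((∀ q ∈ K, dt (nn θ) q ≤ dt (nn θ) (z 4)) ∧ (∀ q ∈ K, dt (nn θ) (z 5) ≤ dt (nn θ) q)) ∧
      (dt (nn θ) (z 3 - z 0) = 0 ∧ dt (nn θ) (z 2 - z 1) = 0 ∧
        dt (uu θ) (z 3 - z 0) = dt (uu θ) (z 2 - z 1) ∧ 0 ≤ dt (uu θ) (z 3 - z 0) ∧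
        2 * dt (nn θ) (z 1 - z 0) = dt (nn θ) (z 4 - z 5)) ∧
      (dt (z 6) (z 6) = 1 ∧ dt (z 7) (z 7) = 1 ∧ dt (z 8) (z 8) = 1 ∧ dt (z 9) (z 9) = 1) ∧
      ((∀ q ∈ K, dt (z 6) (q - z 0) ≤ 0) ∧ (∀ q ∈ K, dt (z 7) (q - z 1) ≤ 0) ∧
        (∀ q ∈ K, dt (z 8) (q - z 2) ≤ 0) ∧ (∀ q ∈ K, dt (z 9) (q - z 3) ≤ 0)) ∧
      (dt (z 6) (uu θ) ≤ 0 ∧ dt (z 7) (uu θ) ≤ 0 ∧ 0 ≤ dt (z 8) (uu θ) ∧
        0 ≤ dt (z 9) (uu θ))) := by
  constructor
  · intro h
    exact ⟨⟨h.m0, h.m1, h.m2, h.m3, h.m4, h.m5⟩, ⟨h.top, h.bot⟩,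
      ⟨h.lev1, h.lev2, h.len, h.pos, h.half⟩, ⟨h.u6, h.u7, h.u8, h.u9⟩,
      ⟨h.s6, h.s7, h.s8, h.s9⟩, ⟨h.g6, h.g7, h.g8, h.g9⟩⟩
  · rintro ⟨⟨a0, a1, a2, a3, a4, a5⟩, ⟨b0, b1⟩, ⟨c0, c1, c2, c3, c4⟩, ⟨d0, d1, d2, d3⟩,
      ⟨e0, e1, e2, e3⟩, ⟨f0, f1, f2, f3⟩⟩
    exact ⟨a0, a1, a2, a3, a4, a5, b0, b1, c0, c1, c2, c3, c4, d0, d1, d2, d3, e0, e1, e2, e3,
      f0, f1, f2, f3⟩

theorem isClosed_ball_le {K : Set (ℝ × ℝ)} {f : W10 → ℝ × ℝ → ℝ} {g : W10 → ℝ × ℝ → ℝ}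
    (hf : ∀ q, Continuous fun w => f w q) (hg : ∀ q, Continuous fun w => g w q) :
    IsClosed {w : W10 | ∀ q ∈ K, f w q ≤ g w q} := by
  have e : {w : W10 | ∀ q ∈ K, f w q ≤ g w q} = ⋂ q ∈ K, {w : W10 | f w q ≤ g w q} := by
    ext w
    simp
  rw [e]
  exact isClosed_biInter fun q _ => isClosed_le (hf q) (hg q)

theorem good_closed {K : Set (ℝ × ℝ)} (hK : IsClosed K) :
    IsClosed {w : W10 | Good K w.1 w.2} := by
  have hz : ∀ i : Fin 10, Continuous fun w : W10 => w.2 i := fun i =>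
    (continuous_apply i).comp continuous_snd
  have hu : Continuous fun w : W10 => uu w.1 := uu_continuous.comp continuous_fst
  have hn : Continuous fun w : W10 => nn w.1 := nn_continuous.comp continuous_fst
  have hmem : ∀ i : Fin 10, IsClosed {w : W10 | w.2 i ∈ K} := fun i => hK.preimage (hz i)
  have hc : ∀ q : ℝ × ℝ, Continuous fun _ : W10 => q := fun q => continuous_const
  simp only [good_iff]
  refine IsClosed.and (IsClosed.and (hmem 0) (IsClosed.and (hmem 1) (IsClosed.and (hmem 2)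
    (IsClosed.and (hmem 3) (IsClosed.and (hmem 4) (hmem 5)))))) ?_
  refine IsClosed.and (IsClosed.and ?_ ?_) ?_
  · exact isClosed_ball_le (fun q => dt_continuous hn (hc q))
      (fun q => dt_continuous hn (hz 4))
  · exact isClosed_ball_le (fun q => dt_continuous hn (hz 5))
      (fun q => dt_continuous hn (hc q))
  refine IsClosed.and (IsClosed.and ?_ (IsClosed.and ?_ (IsClosed.and ?_ (IsClosed.and ?_ ?_)))) ?_
  · exact isClosed_eq (dt_continuous hn ((hz 3).sub (hz 0))) continuous_const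
  · exact isClosed_eq (dt_continuous hn ((hz 2).sub (hz 1))) continuous_const
  · exact isClosed_eq (dt_continuous hu ((hz 3).sub (hz 0)))
      (dt_continuous hu ((hz 2).sub (hz 1)))
  · exact isClosed_le continuous_const (dt_continuous hu ((hz 3).sub (hz 0)))
  · exact isClosed_eq (continuous_const.mul (dt_continuous hn ((hz 1).sub (hz 0))))
      (dt_continuous hn ((hz 4).sub (hz 5)))
  refine IsClosed.and (IsClosed.and ?_ (IsClosed.and ?_ (IsClosed.and ?_ ?_))) ?_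
  · exact isClosed_eq (dt_continuous (hz 6) (hz 6)) continuous_const
  · exact isClosed_eq (dt_continuous (hz 7) (hz 7)) continuous_const
  · exact isClosed_eq (dt_continuous (hz 8) (hz 8)) continuous_const
  · exact isClosed_eq (dt_continuous (hz 9) (hz 9)) continuous_const
  refine IsClosed.and (IsClosed.and ?_ (IsClosed.and ?_ (IsClosed.and ?_ ?_))) ?_
  · exact isClosed_ball_le (fun q => dt_continuous (hz 6) ((hc q).sub (hz 0)))
      (fun q => continuous_const)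
  · exact isClosed_ball_le (fun q => dt_continuous (hz 7) ((hc q).sub (hz 1)))
      (fun q => continuous_const)
  · exact isClosed_ball_le (fun q => dt_continuous (hz 8) ((hc q).sub (hz 2)))
      (fun q => continuous_const)
  · exact isClosed_ball_le (fun q => dt_continuous (hz 9) ((hc q).sub (hz 3)))
      (fun q => continuous_const)
  refine IsClosed.and ?_ (IsClosed.and ?_ (IsClosed.and ?_ ?_))
  · exact isClosed_le (dt_continuous (hz 6) hu) continuous_const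
  · exact isClosed_le (dt_continuous (hz 7) hu) continuous_const
  · exact isClosed_le continuous_const (dt_continuous (hz 8) hu)
  · exact isClosed_le continuous_const (dt_continuous (hz 9) hu)

theorem unit_box {p : ℝ × ℝ} (h : dt p p = 1) : p ∈ Icc (-1 : ℝ) 1 ×ˢ Icc (-1 : ℝ) 1 := by
  unfold dt at h
  refine ⟨⟨?_, ?_⟩, ⟨?_, ?_⟩⟩
  · nlinarith [sq_nonneg p.1, sq_nonneg p.2]
  · nlinarith [sq_nonneg p.1, sq_nonneg p.2]
  · nlinarith [sq_nonneg p.1, sq_nonneg p.2]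
  · nlinarith [sq_nonneg p.1, sq_nonneg p.2]

def Z10 (K : Set (ℝ × ℝ)) : Set W10 := {w : W10 | w.1 ∈ Icc 0 Real.pi ∧ Good K w.1 w.2}

theorem Z10_compact {K : Set (ℝ × ℝ)} (hK : IsCompact K) : IsCompact (Z10 K) := by
  set B : Fin 10 → Set (ℝ × ℝ) := fun i =>
    if i.val < 6 then K else Icc (-1 : ℝ) 1 ×ˢ Icc (-1 : ℝ) 1 with hB
  have hBc : ∀ i, IsCompact (B i) := by
    intro i
    rw [hB]
    by_cases h : i.val < 6
    · simp only [h, if_true]; exact hK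
    · simp only [h, if_false]; exact isCompact_Icc.prod isCompact_Icc
  have hbig : IsCompact (Icc (0 : ℝ) Real.pi ×ˢ (Set.pi univ B)) :=
    isCompact_Icc.prod (isCompact_univ_pi hBc)
  refine hbig.of_isClosed_subset ?_ ?_
  · exact (isClosed_Icc.preimage continuous_fst).inter (good_closed hK.isClosed)
  · rintro ⟨θ, z⟩ ⟨h1, h2⟩
    refine ⟨h1, ?_⟩
    intro i _
    have h2' : Good K θ z := h2
    fin_cases i
    · exact h2'.m0
    · exact h2'.m1
    · exact h2'.m2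
    · exact h2'.m3
    · exact h2'.m4
    · exact h2'.m5
    · exact unit_box h2'.u6
    · exact unit_box h2'.u7
    · exact unit_box h2'.u8
    · exact unit_box h2'.u9

theorem Good.dt_base {K : Set (ℝ × ℝ)} {θ : ℝ} {z : Fin 10 → ℝ × ℝ} (h : Good K θ z)
    (p : ℝ × ℝ) : dt p (z 3 - z 0) = dt (uu θ) (z 3 - z 0) * dt p (uu θ) := by
  conv_lhs => rw [expand θ (z 3 - z 0)]
  rw [h.lev1, zero_smul, add_zero, dt_smul]

theorem Del_continuousOn {K : Set (ℝ × ℝ)} (hpos : PosHyp K) :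
    ContinuousOn (fun w : W10 => Del w.1 w.2) (Z10 K) := by
  have hz : ∀ i : Fin 10, Continuous fun w : W10 => w.2 i := fun i =>
    (continuous_apply i).comp continuous_snd
  have hn : Continuous fun w : W10 => nn w.1 := nn_continuous.comp continuous_fst
  have hden : ∀ i : Fin 10, Continuous fun w : W10 => dt (w.2 i) (w.2 3 - w.2 0) := fun i =>
    dt_continuous (hz i) ((hz 3).sub (hz 0))
  have hdiff : Continuous fun w : W10 => (2 : ℝ) • (w.2 1 - w.2 0) :=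
    ((hz 1).sub (hz 0)).const_smul (2 : ℝ)
  have hnum : ∀ i : Fin 10, Continuous fun w : W10 => dt (w.2 i) ((2 : ℝ) • (w.2 1 - w.2 0)) :=
    fun i => dt_continuous (hz i) hdiff
  have c1 : ContinuousOn (fun w : W10 => sr1 w.2) (Z10 K) := by
    unfold sr1
    refine (ContinuousOn.div (hnum 9).continuousOn (hden 9).continuousOn ?_).neg
    rintro ⟨θ, z⟩ ⟨-, h⟩
    have h' : Good K θ z := h
    obtain ⟨p0, p1, p2, p3, p4, p5, p6, p7⟩ := hpos θ z h'
    show dt (z 9) (z 3 - z 0) ≠ 0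
    rw [h'.dt_base]
    exact (mul_pos p0 p4).ne'
  have c2 : ContinuousOn (fun w : W10 => sr2 w.2) (Z10 K) := by
    unfold sr2
    refine ContinuousOn.div (hnum 8).continuousOn (hden 8).continuousOn ?_
    rintro ⟨θ, z⟩ ⟨-, h⟩
    have h' : Good K θ z := h
    obtain ⟨p0, p1, p2, p3, p4, p5, p6, p7⟩ := hpos θ z h'
    show dt (z 8) (z 3 - z 0) ≠ 0
    rw [h'.dt_base]
    exact (mul_pos p0 p3).ne'
  have c3 : ContinuousOn (fun w : W10 => sl1 w.2) (Z10 K) := by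
    unfold sl1
    refine ContinuousOn.div (hnum 6).continuousOn (hden 6).continuousOn ?_
    rintro ⟨θ, z⟩ ⟨-, h⟩
    have h' : Good K θ z := h
    obtain ⟨p0, p1, p2, p3, p4, p5, p6, p7⟩ := hpos θ z h'
    show dt (z 6) (z 3 - z 0) ≠ 0
    rw [h'.dt_base]
    exact (mul_neg_of_pos_of_neg p0 p1).ne
  have c4 : ContinuousOn (fun w : W10 => sl2 w.2) (Z10 K) := by
    unfold sl2
    refine (ContinuousOn.div (hnum 7).continuousOn (hden 7).continuousOn ?_).neg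
    rintro ⟨θ, z⟩ ⟨-, h⟩
    have h' : Good K θ z := h
    obtain ⟨p0, p1, p2, p3, p4, p5, p6, p7⟩ := hpos θ z h'
    show dt (z 7) (z 3 - z 0) ≠ 0
    rw [h'.dt_base]
    exact (mul_neg_of_pos_of_neg p0 p2).ne
  have c5 : ContinuousOn (fun w : W10 => hb w.1 w.2) (Z10 K) := by
    unfold hb
    refine ContinuousOn.div (dt_continuous hn ((hz 0).sub (hz 5))).continuousOn
      (dt_continuous hn ((hz 4).sub (hz 5))).continuousOn ?_
    rintro ⟨θ, z⟩ ⟨-, h⟩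
    have h' : Good K θ z := h
    obtain ⟨p0, p1, p2, p3, p4, p5, p6, p7⟩ := hpos θ z h'
    exact p5.ne'
  unfold Del
  exact ((c1.add c3).mul c5).sub ((c2.add c4).mul (continuousOn_const.sub c5))

theorem closed_plus_of {K : Set (ℝ × ℝ)} (hK : IsCompact K) (hpos : PosHyp K) :
    IsClosed {θ : ℝ | θ ∈ Icc 0 Real.pi ∧ ∃ z, Good K θ z ∧ 0 ≤ Del θ z} := by
  have hZ := Z10_compact hK
  have h1 : IsClosed (Z10 K ∩ (fun w : W10 => Del w.1 w.2) ⁻¹' Ici 0) :=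
    (Del_continuousOn hpos).preimage_isClosed_of_isClosed hZ.isClosed isClosed_Ici
  have h2 : IsCompact (Z10 K ∩ (fun w : W10 => Del w.1 w.2) ⁻¹' Ici 0) :=
    hZ.of_isClosed_subset h1 inter_subset_left
  have h3 := (h2.image continuous_fst).isClosed
  convert h3 using 1
  ext θ
  constructor
  · rintro ⟨h, z, hz, hd⟩
    exact ⟨(θ, z), ⟨⟨h, hz⟩, hd⟩, rfl⟩
  · rintro ⟨⟨θ', z⟩, ⟨⟨h, hz⟩, hd⟩, rfl⟩
    exact ⟨h, z, hz, hd⟩

theorem closed_minus_of {K : Set (ℝ × ℝ)} (hK : IsCompact K) (hpos : PosHyp K) :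
    IsClosed {θ : ℝ | θ ∈ Icc 0 Real.pi ∧ ∃ z, Good K θ z ∧ Del θ z ≤ 0} := by
  have hZ := Z10_compact hK
  have h1 : IsClosed (Z10 K ∩ (fun w : W10 => Del w.1 w.2) ⁻¹' Iic 0) :=
    (Del_continuousOn hpos).preimage_isClosed_of_isClosed hZ.isClosed isClosed_Iic
  have h2 : IsCompact (Z10 K ∩ (fun w : W10 => Del w.1 w.2) ⁻¹' Iic 0) :=
    hZ.of_isClosed_subset h1 inter_subset_left
  have h3 := (h2.image continuous_fst).isClosed
  convert h3 using 1
  ext θ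
  constructor
  · rintro ⟨h, z, hz, hd⟩
    exact ⟨(θ, z), ⟨⟨h, hz⟩, hd⟩, rfl⟩
  · rintro ⟨⟨θ', z⟩, ⟨⟨h, hz⟩, hd⟩, rfl⟩
    exact ⟨h, z, hz, hd⟩

end Pool.Agent.Helper27.PHU
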