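import Pool.Agent.Helper27.PHU.Closed
import Pool.Agent.Helper79.PHU.Pos

/-!
# MP_8bf717_co, upper bound: a critical direction (PHU-14)
-/

set_option autoImplicit false

open MeasureTheory Set

namespace Pool.Agent.Helper27.PHU

open Pool.Agent.Helper37.PH Pool.Agent.Helper61.PH

theorem posHyp {K : Set (ℝ × ℝ)} (hK : SBody K) : PosHyp K := fun _ _ h =>
  Pool.Agent.Helper79.PHU.good_pos hK h

theorem exists_crit_of {K : Set (ℝ × ℝ)} (hK : SBody K)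
    (hex : ∀ θ : ℝ, ∃ z : Fin 10 → ℝ × ℝ, Good K θ z) :
    ∃ (θ : ℝ) (z z' : Fin 10 → ℝ × ℝ), Good K θ z ∧ Good K θ z' ∧ Del θ z ≤ 0 ∧ 0 ≤ Del θ z' := by
  set P : Set ℝ := {θ : ℝ | θ ∈ Icc 0 Real.pi ∧ ∃ z, Good K θ z ∧ 0 ≤ Del θ z} with hP
  set M : Set ℝ := {θ : ℝ | θ ∈ Icc 0 Real.pi ∧ ∃ z, Good K θ z ∧ Del θ z ≤ 0} with hM
  have hPc : IsClosed P := closed_plus_of hK.body.compact (posHyp hK)
  have hMc : IsClosed M := closed_minus_of hK.body.compact (posHyp hK)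
  have hpi := Real.pi_pos
  have hcov : Icc 0 Real.pi ⊆ P ∪ M := by
    intro θ hθ
    obtain ⟨z, hz⟩ := hex θ
    rcases le_total 0 (Del θ z) with h | h
    · exact Or.inl ⟨hθ, z, hz, h⟩
    · exact Or.inr ⟨hθ, z, hz, h⟩
  have h0 : (0 : ℝ) ∈ Icc 0 Real.pi := ⟨le_rfl, hpi.le⟩
  have h1 : Real.pi ∈ Icc 0 Real.pi := ⟨hpi.le, le_rfl⟩
  have hturn : ∀ z, Good K 0 z → Good K Real.pi (turn z) ∧ Del Real.pi (turn z) = -Del 0 z := by
    intro z hz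
    have e : (0 : ℝ) + Real.pi = Real.pi := zero_add _
    have := good_turn hz
    have h2 := Del_turn hz (posHyp hK 0 z hz).2.2.2.2.2.1.ne'
    rw [e] at this h2
    exact ⟨this, h2⟩
  have hPne : (Icc 0 Real.pi ∩ P).Nonempty := by
    obtain ⟨z, hz⟩ := hex 0
    obtain ⟨t1, t2⟩ := hturn z hz
    rcases le_total 0 (Del 0 z) with h | h
    · exact ⟨0, h0, h0, z, hz, h⟩
    · exact ⟨Real.pi, h1, h1, turn z, t1, by rw [t2]; linarith⟩
  have hMne : (Icc 0 Real.pi ∩ M).Nonempty := by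
    obtain ⟨z, hz⟩ := hex 0
    obtain ⟨t1, t2⟩ := hturn z hz
    rcases le_total 0 (Del 0 z) with h | h
    · exact ⟨Real.pi, h1, h1, turn z, t1, by rw [t2]; linarith⟩
    · exact ⟨0, h0, h0, z, hz, h⟩
  have hconn : IsPreconnected (Icc 0 Real.pi) := isPreconnected_Icc
  obtain ⟨θ, -, ⟨-, z', hz', hd'⟩, ⟨-, z, hz, hd⟩⟩ :=
    (isPreconnected_closed_iff.1 hconn) P M hPc hMc hcov hPne hMne
  exact ⟨θ, z, z', hz, hz', hd, hd'⟩

end Pool.Agent.Helper27.PHU
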