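import Pool.Agent.Helper88.PH.GableMain
import Pool.Agent.Helper61.PH.MaxTri

/-!
# MP_8bf717_co, upper bound `H ≤ 5/4`: definitions (critical-direction frame)

Paper proof: /team-store/helper27_PH54.md
-/

set_option autoImplicit false

open MeasureTheory Set

namespace Pool.Agent.Helper27.PHU

open Pool.Agent.Helper37.PH Pool.Agent.Helper61.PH

/-- `K` lies in p-hexagons of area arbitrarily close to `V`. -/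
def Cov (K : Set (ℝ × ℝ)) (V : ℝ) : Prop :=
  ∀ ε : ℝ, 0 < ε → ∃ P : Set (ℝ × ℝ), IsPHexagon P ∧ K ⊆ P ∧
    volume P ≤ ENNReal.ofReal V + ENNReal.ofReal ε

/-- Strictly convex bodies. -/
structure SBody (K : Set (ℝ × ℝ)) : Prop where
  body : IsBody K
  strict : ∀ p ∈ K, ∀ q ∈ K, p ≠ q → (1 / 2 : ℝ) • (p + q) ∈ interior K

/-- The critical-direction frame. -/
structure Frame (K : Set (ℝ × ℝ)) (b c1 c2 r1 r2 l1 l2 : ℝ) : Prop where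
  body : IsBody K
  b0 : 0 < b
  b1 : b < 1 / 2
  c10 : 0 < c1
  c11 : c1 < 1
  c20 : 0 < c2
  c21 : c2 < 1
  top : ∀ q ∈ K, q.2 ≤ 1
  bot : ∀ q ∈ K, 0 ≤ q.2
  mA : ((0 : ℝ), b) ∈ K
  mB : ((0 : ℝ), b + 1 / 2) ∈ K
  mC : ((1 : ℝ), b + 1 / 2) ∈ K
  mD : ((1 : ℝ), b) ∈ K
  mT : (c1, (1 : ℝ)) ∈ K
  mU : (c2, (0 : ℝ)) ∈ K
  R1 : ∀ q ∈ K, q.1 ≤ 1 + r1 * (q.2 - b)
  R2 : ∀ q ∈ K, q.1 ≤ 1 - r2 * (q.2 - (b + 1 / 2))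
  L1 : ∀ q ∈ K, -q.1 ≤ l1 * (q.2 - b)
  L2 : ∀ q ∈ K, -q.1 ≤ -l2 * (q.2 - (b + 1 / 2))
  bal : (r1 + l1) * b = (r2 + l2) * (1 / 2 - b)

/-- The features of a framed body: extents `lam`, `rho`, and the excesses `e1` (top left),
`f1` (top right), `e2` (bottom left), `f2` (bottom right). -/
structure Feat (K : Set (ℝ × ℝ)) (b c1 c2 lam rho e1 f1 e2 f2 : ℝ) : Prop where
  lam0 : 0 ≤ lam
  rho0 : 0 ≤ rho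
  e10 : 0 ≤ e1
  e11 : e1 ≤ 1 / 2 - b
  f10 : 0 ≤ f1
  f11 : f1 ≤ 1 / 2 - b
  e20 : 0 ≤ e2
  e21 : e2 ≤ b
  f20 : 0 ≤ f2
  f21 : f2 ≤ b
  hl : ∀ q ∈ K, -lam ≤ q.1
  hr : ∀ q ∈ K, q.1 ≤ 1 + rho
  tl : ∀ q ∈ K, q.2 ≤ b + 1 / 2 + (1 / 2 - b) * (q.1 / c1) + e1
  tr : ∀ q ∈ K, q.2 ≤ b + 1 / 2 + (1 / 2 - b) * ((1 - q.1) / (1 - c1)) + f1
  bl : ∀ q ∈ K, b - b * (q.1 / c2) - e2 ≤ q.2
  br : ∀ q ∈ K, b - b * ((1 - q.1) / (1 - c2)) - f2 ≤ q.2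
  xl : ∃ y, (-lam, y) ∈ K
  xr : ∃ y, (1 + rho, y) ∈ K
  xtl : ∃ x, 0 ≤ x ∧ x ≤ c1 ∧ (x, b + 1 / 2 + (1 / 2 - b) * (x / c1) + e1) ∈ K
  xtr : ∃ x, c1 ≤ x ∧ x ≤ 1 ∧ (x, b + 1 / 2 + (1 / 2 - b) * ((1 - x) / (1 - c1)) + f1) ∈ K
  xbl : ∃ x, 0 ≤ x ∧ x ≤ c2 ∧ (x, b - b * (x / c2) - e2) ∈ K
  xbr : ∃ x, c2 ≤ x ∧ x ≤ 1 ∧ (x, b - b * ((1 - x) / (1 - c2)) - f2) ∈ K

/-- reflections and the exchange of the coordinates -/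
def flipY (K : Set (ℝ × ℝ)) : Set (ℝ × ℝ) := (fun q : ℝ × ℝ => (q.1, 1 - q.2)) '' K

def flipX (K : Set (ℝ × ℝ)) : Set (ℝ × ℝ) := (fun q : ℝ × ℝ => (1 - q.1, q.2)) '' K

/-! ## Directions -/

/-- scalar product -/
def dt (p q : ℝ × ℝ) : ℝ := p.1 * q.1 + p.2 * q.2

noncomputable def uu (θ : ℝ) : ℝ × ℝ := (Real.cos θ, Real.sin θ)

noncomputable def nn (θ : ℝ) : ℝ × ℝ := (-Real.sin θ, Real.cos θ)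

/-- The critical chords in direction `θ`: `z 0 = A`, `z 1 = B`, `z 2 = C`, `z 3 = D`, `z 4 = T`,
`z 5 = U`, and `z 6, …, z 9` are unit normals supporting `K` at `A, B, C, D`. -/
structure Good (K : Set (ℝ × ℝ)) (θ : ℝ) (z : Fin 10 → ℝ × ℝ) : Prop where
  m0 : z 0 ∈ K
  m1 : z 1 ∈ K
  m2 : z 2 ∈ K
  m3 : z 3 ∈ K
  m4 : z 4 ∈ K
  m5 : z 5 ∈ K
  top : ∀ q ∈ K, dt (nn θ) q ≤ dt (nn θ) (z 4)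
  bot : ∀ q ∈ K, dt (nn θ) (z 5) ≤ dt (nn θ) q
  lev1 : dt (nn θ) (z 3 - z 0) = 0
  lev2 : dt (nn θ) (z 2 - z 1) = 0
  len : dt (uu θ) (z 3 - z 0) = dt (uu θ) (z 2 - z 1)
  pos : 0 ≤ dt (uu θ) (z 3 - z 0)
  half : 2 * dt (nn θ) (z 1 - z 0) = dt (nn θ) (z 4 - z 5)
  u6 : dt (z 6) (z 6) = 1
  u7 : dt (z 7) (z 7) = 1
  u8 : dt (z 8) (z 8) = 1
  u9 : dt (z 9) (z 9) = 1
  s6 : ∀ q ∈ K, dt (z 6) (q - z 0) ≤ 0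
  s7 : ∀ q ∈ K, dt (z 7) (q - z 1) ≤ 0
  s8 : ∀ q ∈ K, dt (z 8) (q - z 2) ≤ 0
  s9 : ∀ q ∈ K, dt (z 9) (q - z 3) ≤ 0
  g6 : dt (z 6) (uu θ) ≤ 0
  g7 : dt (z 7) (uu θ) ≤ 0
  g8 : 0 ≤ dt (z 8) (uu θ)
  g9 : 0 ≤ dt (z 9) (uu θ)

/-- relative height of `A` -/
noncomputable def hb (θ : ℝ) (z : Fin 10 → ℝ × ℝ) : ℝ :=
  dt (nn θ) (z 0 - z 5) / dt (nn θ) (z 4 - z 5)

/-- slopes of the four support lines in the frame -/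
noncomputable def sr1 (z : Fin 10 → ℝ × ℝ) : ℝ :=
  -(dt (z 9) ((2 : ℝ) • (z 1 - z 0)) / dt (z 9) (z 3 - z 0))

noncomputable def sr2 (z : Fin 10 → ℝ × ℝ) : ℝ :=
  dt (z 8) ((2 : ℝ) • (z 1 - z 0)) / dt (z 8) (z 3 - z 0)

noncomputable def sl1 (z : Fin 10 → ℝ × ℝ) : ℝ :=
  dt (z 6) ((2 : ℝ) • (z 1 - z 0)) / dt (z 6) (z 3 - z 0)

noncomputable def sl2 (z : Fin 10 → ℝ × ℝ) : ℝ :=
  -(dt (z 7) ((2 : ℝ) • (z 1 - z 0)) / dt (z 7) (z 3 - z 0))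

noncomputable def Del (θ : ℝ) (z : Fin 10 → ℝ × ℝ) : ℝ :=
  (sr1 z + sl1 z) * hb θ z - (sr2 z + sl2 z) * (1 / 2 - hb θ z)

/-- the data after a half turn -/
def turn (z : Fin 10 → ℝ × ℝ) : Fin 10 → ℝ × ℝ :=
  ![z 2, z 3, z 0, z 1, z 5, z 4, z 8, z 9, z 6, z 7]

end Pool.Agent.Helper27.PHU
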