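import Pool.Agent.Helper27.PHU.Crit
import Pool.Agent.Helper83.PHU.Tools
import Pool.Agent.Helper81.PHU.Fin
import Pool.Agent.Helper61.PHU.Strict
import Pool.Agent.Helper55.PHU.Frame
import Pool.Agent.Helper21.PHU.Exist

/-!
# MP_8bf717_co, upper bound: `H ≤ 5/4` (PHU-17)
-/

set_option autoImplicit false

open MeasureTheory Set

namespace Pool.Agent.Helper27.PHU

open Pool.Agent.Helper37.PH Pool.Agent.Helper61.PH

theorem H_le : H ≤ ENNReal.ofReal (5 / 4) := by
  unfold H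
  refine iSup₂_le fun K hK => ?_
  obtain ⟨hbody, hvol⟩ := hK
  apply ENNReal.le_of_forall_pos_le_add
  intro ε hε _
  have hε' : (0 : ℝ) < ε := hε
  have hε4 : (0 : ℝ) < ε / 4 := by linarith
  obtain ⟨K', hS, hsub, hv⟩ := Pool.Agent.Helper61.PHU.strict_approx hbody hε4
  obtain ⟨L, c, b, c1, c2, r1, r2, l1, l2, hF⟩ := Pool.Agent.Helper55.PHU.exists_frame_of_crit hS
    (exists_crit_of hS (Pool.Agent.Helper21.PHU.good_exists hS))
  have hC := Pool.Agent.Helper81.PHU.frame_final hF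
  have hv' : volume (affE L c '' K') = ENNReal.ofReal
      |LinearMap.det (L : (ℝ × ℝ) →ₗ[ℝ] (ℝ × ℝ))| * volume K' := volume_affE L c K'
  have hvr : (volume (affE L c '' K')).toReal =
      |LinearMap.det (L : (ℝ × ℝ) →ₗ[ℝ] (ℝ × ℝ))| * (volume K').toReal := by
    rw [hv', ENNReal.toReal_mul, ENNReal.toReal_ofReal (abs_nonneg _)]
  have hC2 : Cov K' (5 / 4 * (volume K').toReal) := by
    apply Pool.Agent.Helper83.PHU.Cov_affE L c
    rw [hvr] at hC
    have e : 5 / 4 * (|LinearMap.det (L : (ℝ × ℝ) →ₗ[ℝ] (ℝ × ℝ))| * (volume K').toReal) =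
        |LinearMap.det (L : (ℝ × ℝ) →ₗ[ℝ] (ℝ × ℝ))| * (5 / 4 * (volume K').toReal) := by ring
    rwa [e] at hC
  obtain ⟨P, hP, hKP, hvP⟩ := hC2 (ε / 4) hε4
  have hstar_le : hstar K ≤ volume P := by
    unfold hstar
    exact iInf₂_le P ⟨hP, hsub.trans hKP⟩
  refine hstar_le.trans (hvP.trans ?_)
  have hvt : (volume K').toReal ≤ 1 + ε / 4 := by
    have h1 : volume K' ≤ ENNReal.ofReal (1 + ε / 4) := by
      refine hv.trans ?_
      rw [hvol, ENNReal.ofReal_add (by norm_num) (by linarith), ENNReal.ofReal_one]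
    exact ENNReal.toReal_le_of_le_ofReal (by linarith) h1
  rw [← ENNReal.ofReal_add (by positivity) (by linarith)]
  have e2 : (ε : ENNReal) = ENNReal.ofReal (ε : ℝ) := by rw [ENNReal.ofReal_coe_nnreal]
  rw [e2, ← ENNReal.ofReal_add (by norm_num) hε'.le]
  apply ENNReal.ofReal_le_ofReal
  linarith

end Pool.Agent.Helper27.PHU
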