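import Pool.Agent.Helper27.PHU.Defs

/-!
# MP_8bf717_co, upper bound: basic facts on directions, and the half turn (PHU-13)
-/

set_option autoImplicit false

open MeasureTheory Set

namespace Pool.Agent.Helper27.PHU

theorem dt_add (p q r : ℝ × ℝ) : dt p (q + r) = dt p q + dt p r := by
  simp only [dt, Prod.fst_add, Prod.snd_add]; ring

theorem dt_sub (p q r : ℝ × ℝ) : dt p (q - r) = dt p q - dt p r := by
  simp only [dt, Prod.fst_sub, Prod.snd_sub]; ring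

theorem dt_smul (p q : ℝ × ℝ) (c : ℝ) : dt p (c • q) = c * dt p q := by
  simp only [dt, Prod.smul_fst, Prod.smul_snd, smul_eq_mul]; ring

theorem dt_neg (p q : ℝ × ℝ) : dt p (-q) = -dt p q := by
  simp only [dt, Prod.fst_neg, Prod.snd_neg]; ring

theorem dt_neg_left (p q : ℝ × ℝ) : dt (-p) q = -dt p q := by
  simp only [dt, Prod.fst_neg, Prod.snd_neg]; ring

theorem uu_add_pi (θ : ℝ) : uu (θ + Real.pi) = -uu θ := by
  unfold uu
  rw [Real.cos_add_pi, Real.sin_add_pi]; rfl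

theorem nn_add_pi (θ : ℝ) : nn (θ + Real.pi) = -nn θ := by
  unfold nn
  rw [Real.cos_add_pi, Real.sin_add_pi, neg_neg]
  ext <;> simp

/-- Expansion in the orthonormal basis. -/
theorem expand (θ : ℝ) (v : ℝ × ℝ) : v = dt (uu θ) v • uu θ + dt (nn θ) v • nn θ := by
  have h := Real.sin_sq_add_cos_sq θ
  ext
  · simp only [dt, uu, nn, Prod.fst_add, Prod.smul_fst, smul_eq_mul]
    linear_combination (-v.1) * h
  · simp only [dt, uu, nn, Prod.snd_add, Prod.smul_snd, smul_eq_mul]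
    linear_combination (-v.2) * h

/-- Two vectors with the same coordinates are equal. -/
theorem ext_uu (θ : ℝ) {v w : ℝ × ℝ} (h1 : dt (uu θ) v = dt (uu θ) w)
    (h2 : dt (nn θ) v = dt (nn θ) w) : v = w := by
  rw [expand θ v, expand θ w, h1, h2]

theorem Good.par {K : Set (ℝ × ℝ)} {θ : ℝ} {z : Fin 10 → ℝ × ℝ} (h : Good K θ z) :
    z 3 - z 0 = z 2 - z 1 :=
  ext_uu θ h.len (h.lev1.trans h.lev2.symm)

theorem Good.par' {K : Set (ℝ × ℝ)} {θ : ℝ} {z : Fin 10 → ℝ × ℝ} (h : Good K θ z) :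
    z 3 - z 2 = -(z 1 - z 0) := by
  have e := h.par
  have h1 : z 3 - z 2 = (z 3 - z 0) - (z 2 - z 1) - (z 1 - z 0) := by abel
  rw [h1, e]; abel

theorem good_turn {K : Set (ℝ × ℝ)} {θ : ℝ} {z : Fin 10 → ℝ × ℝ} (h : Good K θ z) :
    Good K (θ + Real.pi) (turn z) := by
  have e1 : (turn z) 0 = z 2 := rfl
  have e2 : (turn z) 1 = z 3 := rfl
  have e3 : (turn z) 2 = z 0 := rfl
  have e4 : (turn z) 3 = z 1 := rfl
  have e5 : (turn z) 4 = z 5 := rfl
  have e6 : (turn z) 5 = z 4 := rfl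
  have e7 : (turn z) 6 = z 8 := rfl
  have e8 : (turn z) 7 = z 9 := rfl
  have e9 : (turn z) 8 = z 6 := rfl
  have e10 : (turn z) 9 = z 7 := rfl
  have hl := h.len
  have h1 := h.lev1
  have h2 := h.lev2
  have hp := h.pos
  have hh := h.half
  refine ⟨by rw [e1]; exact h.m2, by rw [e2]; exact h.m3, by rw [e3]; exact h.m0,
    by rw [e4]; exact h.m1, by rw [e5]; exact h.m5, by rw [e6]; exact h.m4, ?_, ?_, ?_, ?_, ?_,
    ?_, ?_, by rw [e7]; exact h.u8, by rw [e8]; exact h.u9, by rw [e9]; exact h.u6,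
    by rw [e10]; exact h.u7, by rw [e7, e1]; exact h.s8, by rw [e8, e2]; exact h.s9,
    by rw [e9, e3]; exact h.s6, by rw [e10, e4]; exact h.s7, ?_, ?_, ?_, ?_⟩
  · intro q hq
    rw [nn_add_pi, e5, dt_neg_left, dt_neg_left]
    have := h.bot q hq
    linarith
  · intro q hq
    rw [nn_add_pi, e6, dt_neg_left, dt_neg_left]
    have := h.top q hq
    linarith
  · rw [nn_add_pi, e4, e1, dt_neg_left]
    rw [dt_sub] at h2 ⊢
    linarith
  · rw [nn_add_pi, e3, e2, dt_neg_left]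
    rw [dt_sub] at h1 ⊢
    linarith
  · rw [uu_add_pi, e4, e1, e3, e2, dt_neg_left, dt_neg_left]
    rw [dt_sub, dt_sub] at hl ⊢
    linarith
  · rw [uu_add_pi, e4, e1, dt_neg_left]
    rw [hl, dt_sub] at hp
    rw [dt_sub]
    linarith
  · rw [nn_add_pi, e2, e1, e5, e6, dt_neg_left, dt_neg_left, h.par', dt_neg]
    rw [dt_sub (nn θ) (z 4)] at hh
    rw [dt_sub (nn θ) (z 5)]
    linarith
  · rw [uu_add_pi, e7, dt_neg]
    linarith [h.g8]
  · rw [uu_add_pi, e8, dt_neg]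
    linarith [h.g9]
  · rw [uu_add_pi, e9, dt_neg]
    linarith [h.g6]
  · rw [uu_add_pi, e10, dt_neg]
    linarith [h.g7]

theorem Del_turn {K : Set (ℝ × ℝ)} {θ : ℝ} {z : Fin 10 → ℝ × ℝ} (h : Good K θ z)
    (h0 : dt (nn θ) (z 4 - z 5) ≠ 0) :
    Del (θ + Real.pi) (turn z) = -Del θ z := by
  have hhb : hb (θ + Real.pi) (turn z) = 1 / 2 - hb θ z := by
    have e : hb (θ + Real.pi) (turn z) =
        dt (nn (θ + Real.pi)) (z 2 - z 4) / dt (nn (θ + Real.pi)) (z 5 - z 4) := rfl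
    rw [e, nn_add_pi, dt_neg_left, dt_neg_left]
    unfold hb
    have hh := h.half
    have h2 := h.lev2
    have e1 : -dt (nn θ) (z 5 - z 4) = dt (nn θ) (z 4 - z 5) := by
      rw [dt_sub, dt_sub]; ring
    rw [e1]
    rw [div_eq_iff h0, sub_mul, div_mul_cancel₀ _ h0]
    rw [dt_sub] at hh h2 ⊢
    rw [dt_sub] at hh ⊢
    rw [dt_sub]
    linarith
  have hp := h.par
  have hp' := h.par'
  have q1 : z 1 - z 2 = -(z 3 - z 0) := by rw [hp]; abel
  have q2 : (2 : ℝ) • (z 3 - z 2) = -((2 : ℝ) • (z 1 - z 0)) := by rw [hp', smul_neg]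
  have s1 : sr1 (turn z) = sl2 z := by
    have e : sr1 (turn z) = -(dt (z 7) ((2 : ℝ) • (z 3 - z 2)) / dt (z 7) (z 1 - z 2)) := rfl
    rw [e, q1, q2, dt_neg, dt_neg, neg_div_neg_eq]
    rfl
  have s2 : sr2 (turn z) = sl1 z := by
    have e : sr2 (turn z) = dt (z 6) ((2 : ℝ) • (z 3 - z 2)) / dt (z 6) (z 1 - z 2) := rfl
    rw [e, q1, q2, dt_neg, dt_neg, neg_div_neg_eq]
    rfl
  have s3 : sl1 (turn z) = sr2 z := by
    have e : sl1 (turn z) = dt (z 8) ((2 : ℝ) • (z 3 - z 2)) / dt (z 8) (z 1 - z 2) := rfl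
    rw [e, q1, q2, dt_neg, dt_neg, neg_div_neg_eq]
    rfl
  have s4 : sl2 (turn z) = sr1 z := by
    have e : sl2 (turn z) = -(dt (z 9) ((2 : ℝ) • (z 3 - z 2)) / dt (z 9) (z 1 - z 2)) := rfl
    rw [e, q1, q2, dt_neg, dt_neg, neg_div_neg_eq]
    rfl
  unfold Del
  rw [hhb, s1, s2, s3, s4]
  ring

end Pool.Agent.Helper27.PHU
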